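import Pool.Agent.Helper73.MI.Stmts
import Mathlib.Analysis.Calculus.InverseFunctionTheorem.FDeriv
import Mathlib.Analysis.Calculus.ContDiff.Operations

/-!
# Module IFT: the inverse of `Y` (project MP_a2630c_MI)
-/

set_option autoImplicit false

open Filter Topology
open Pool.Agent.Helper73.MI

universe w

namespace Pool.Agent.Helper94.MI

theorem ift : S_ift.{w} := by
  intro V _ _ _ _ _ D F Y ξ τ P lam h
  -- `P v` is injective
  obtain ⟨c, hc, hlow⟩ := h.Plow
  have hinj : ∀ v, Function.Injective (P v) := by
    intro v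
    rw [injective_iff_map_eq_zero]
    intro w hw
    have h1 := hlow v w
    rw [hw, inner_zero_right, mul_zero] at h1
    have h2 : ‖w‖ ^ 2 ≤ 0 := by
      by_contra h3
      push Not at h3
      nlinarith
    have h3 : ‖w‖ = 0 := by
      have : 0 ≤ ‖w‖ ^ 2 := sq_nonneg _
      have : ‖w‖ ^ 2 = 0 := le_antisymm h2 this
      exact pow_eq_zero_iff (two_ne_zero) |>.1 this
    exact norm_eq_zero.1 h3
  let e : V → V ≃L[ℝ] V := fun v =>
    (LinearEquiv.ofInjectiveEndo ((P v : V →L[ℝ] V) : V →ₗ[ℝ] V) (hinj v)).toContinuousLinearEquiv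
  have he : ∀ v, ((e v : V ≃L[ℝ] V) : V →L[ℝ] V) = P v := by
    intro v
    ext w
    rfl
  refine ⟨Function.invFun Y, fun v => ((e v).symm : V →L[ℝ] V), ?_, ?_, ?_, ?_, ?_, ?_⟩
  · exact Function.leftInverse_invFun h.Yinj
  · intro y hy
    exact Function.invFun_eq (h.Ysurj y hy)
  · intro v w
    rw [← he v]
    simp
  · intro v w
    have : P v ((e v).symm w) = (e v) ((e v).symm w) := by
      rw [← he v]
      rfl
    show P v ((e v).symm w) = w
    rw [this, ContinuousLinearEquiv.apply_symm_apply]
  · intro v
    have h1 : HasStrictFDerivAt Y (P v) v :=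
      hasStrictFDerivAt_of_hasFDerivAt_of_continuousAt
        (Eventually.of_forall fun x => h.Yder x) h.Pcont.continuousAt
    rw [← he v] at h1
    exact (h1.to_local_left_inverse
      (Eventually.of_forall (Function.leftInverse_invFun h.Yinj))).hasFDerivAt
  · rw [continuous_iff_continuousAt]
    intro v
    have h1 : ContinuousAt (fun w => ContinuousLinearMap.inverse (P w)) v := by
      have h2 : ContinuousAt (ContinuousLinearMap.inverse : (V →L[ℝ] V) → V →L[ℝ] V) (P v) := by
        rw [← he v]
        exact (contDiffAt_map_inverse (n := 0) (e v)).continuousAt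
      exact ContinuousAt.comp h2 h.Pcont.continuousAt
    refine h1.congr (Eventually.of_forall fun w => ?_)
    show ContinuousLinearMap.inverse (P w) = _
    rw [← he w, ContinuousLinearMap.inverse_equiv]

end Pool.Agent.Helper94.MI
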